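import Pool.Agent.H717R2.ON3.Mainb0

/-! # Task MAINB1: the bound on one scale -/

set_option autoImplicit false

noncomputable section

namespace Pool.Agent.H717R2.ON3

open MvPolynomial Pool.Agent.H5R2.ON

theorem single_scale (β : ℝ) (hβ : 0 ≤ β) : ∃ C : ℝ, 0 < C ∧ ∀ R l : ℝ, 1 ≤ l →
    100 * l ≤ R → ∀ (L : ℕ) [NeZero L], 2 * R < L → ∀ (p : Tor L)
      (W : WFun (gT L) β (ball p R)), W.E (UU (gT L) β (kl R p l) 2 ^ 2) ≤ C := by
  obtain ⟨K, hK, hgeo⟩ := geo_energy
  obtain ⟨K', hK', hnear⟩ := near_count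
  refine ⟨β * K + K' * (12 * β ^ 2 * K + 4 * β * K) + 1, by positivity, ?_⟩
  intro R l hl hR L _ hL p W
  have hR0 : 0 < R := by linarith
  have hlR : l ≤ R := by linarith
  have hl0 : 0 < l := by linarith
  have hfar : ∀ a ∈ ball p R, ∀ b ∈ ball p R, ¬(tnorm (a - b) ≤ 7 * l) → ∀ x y,
      ka R p l a x y ≠ 0 → ∀ h h', D x h (UU (gT L) β (ka R p l b) h') = 0 ∧
        D x h (JJ (gT L) β (fun e => ka R p l b ((gT L).s e) ((gT L).t e)) h') = 0 := by
    intro a _ b _ hab x y hxy h h'
    have hx := (ka_supp hl hR hxy).1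
    have hxb : ¬ tnorm (x - b) ≤ 3 * l + 1 := by
      intro hxb
      apply hab
      have h1 : tnorm (a - b) ≤ tnorm (a - x) + tnorm (x - b) := by
        have := tnorm_add_le (a - x) (x - b)
        simpa using this
      rw [tnorm_sub_comm a x] at h1
      linarith
    constructor
    · refine Loc_UU (gT L) β (A := {z | tnorm (z - b) ≤ 3 * l + 1})
        (B := {z | tnorm (z - b) ≤ 3 * l}) ?_ ?_ h' x hxb h
      · intro u v huv
        have := ka_supp hl hR huv
        exact ⟨this.1, this.2.1⟩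
      · intro e he
        exact edge_near e b (3 * l) he
    · refine Loc_JJ (gT L) β (A := {z | tnorm (z - b) ≤ 3 * l + 1}) ?_ h' x hxb h
      intro e he
      have := ka_supp hl hR he
      constructor
      · show tnorm _ ≤ _
        linarith [this.1]
      · show tnorm _ ≤ _
        linarith [this.2.1]
  have hA0 : 0 ≤ 6 * β ^ 2 * (K / (l ^ 2 * R ^ 2)) := by positivity
  have hB0 : 0 ≤ 4 * β * (K / (l ^ 2 * R ^ 2)) := by positivity
  have hA : ∀ a ∈ ball p R, W.E (UU (gT L) β (ka R p l a) 2 ^ 2) ≤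
      6 * β ^ 2 * (K / (l ^ 2 * R ^ 2)) := by
    intro a _
    by_cases hz : ∃ x y, ka R p l a x y ≠ 0
    · obtain ⟨x₀, y₀, h0⟩ := hz
      have ha := (ka_supp hl hR h0).2.2.2.2.2.2
      have hin : ∀ x, tnorm (x - a) ≤ 3 * l → x ∈ ball p R := by
        intro x hx
        rw [mem_ball]
        have h1 : tnorm (x - p) ≤ tnorm (x - a) + tnorm (a - p) := by
          have := tnorm_add_le (x - a) (a - p)
          simpa using this
        linarith
      refine W.kp_sq hβ ?_ ?_ 2 ?_
      · intro x hx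
        by_contra h
        exact hx (hin x ((th_supp hl h).trans (by linarith)))
      · intro x hx
        by_contra h
        exact hx (hin x (tt_supp hl h))
      · exact (hgeo L p a R l hl hR hL).1
    · push Not at hz
      have : ka R p l a = fun _ _ => 0 := by
        funext x y
        exact hz x y
      rw [this, UU_zero]
      simpa using hA0
  have hB : ∀ a ∈ ball p R, 4 * β * ∑ e, ka R p l a ((gT L).s e) ((gT L).t e) ^ 2 ≤
      4 * β * (K / (l ^ 2 * R ^ 2)) := by
    intro a _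
    exact mul_le_mul_of_nonneg_left (hgeo L p a R l hl hR hL).2.2.2 (by positivity)
  have key := W.single hβ (ball p R) (fun a => ka R p l a) (fR R p) 2
    (by
      intro x hx
      rw [mem_ball, not_le] at hx
      exact fR_far R hR0 p x (by linarith))
    (fun a _ => ka_anti R p l a)
    (by
      intro a _ x y hxy
      have := ka_supp hl hR hxy
      rw [mem_ball, mem_ball]
      exact ⟨by linarith [this.2.2.2.2.1], by linarith [this.2.2.2.2.2.1]⟩)
    (fun e => kl_edge hl hR p e)
    (fun a b => tnorm (a - b) ≤ 7 * l)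
    (fun a b h => by rw [tnorm_sub_comm]; exact h)
    hfar _ _ (K' * R ^ 2 * l ^ 2) hA0 hB0 hA hB (hnear L p R l hl hlR)
  have hEn := (hgeo L p p R l hl hR hL).2.2.1
  have e1 : K' * R ^ 2 * l ^ 2 * (2 * (6 * β ^ 2 * (K / (l ^ 2 * R ^ 2))) +
      4 * β * (K / (l ^ 2 * R ^ 2))) = K' * (12 * β ^ 2 * K + 4 * β * K) := by
    field_simp
    ring
  have e2 : β * En (gT L) (fR R p) ≤ β * K := mul_le_mul_of_nonneg_left hEn hβ
  calc W.E (UU (gT L) β (kl R p l) 2 ^ 2)
      ≤ _ := key
    _ ≤ β * K + K' * (12 * β ^ 2 * K + 4 * β * K) := by rw [e1]; linarith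
    _ ≤ _ := by linarith

end Pool.Agent.H717R2.ON3
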