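import Pool.Agent.H717R2.ON3.Mainb0

/-! # Task MAINB2: correlation of two scales -/

set_option autoImplicit false

noncomputable section

namespace Pool.Agent.H717R2.ON3

open MvPolynomial Pool.Agent.H5R2.ON

/-- one piece of the smaller scale against the larger scale -/
theorem cross_piece (β : ℝ) (hβ : 0 ≤ β) (K : ℝ) (hK : 0 < K)
    (hgeo : ∀ (L : ℕ) [NeZero L] (p a : Tor L) (R l : ℝ),
      1 ≤ l → 100 * l ≤ R → 2 * R < L →
      (En (gT L) (th l a) * En (gT L) (fun x => tt l a x * (fR R p x - fR R p a)) +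
        En (gT L) (fun x => th l a x * (fR R p x - fR R p a)) * En (gT L) (tt l a) ≤
          K / (l ^ 2 * R ^ 2)) ∧
      En (gT L) (fun x => ch l a x * (fR R p x - fR R p a)) ≤ K * l ^ 2 / R ^ 2 ∧
      En (gT L) (fR R p) ≤ K ∧
      ∑ e, ka R p l a ((gT L).s e) ((gT L).t e) ^ 2 ≤ K / (l ^ 2 * R ^ 2))
    (R l l' δ : ℝ) (hl : 1 ≤ l) (hll : 16 * l ≤ l') (hR : 100 * l' ≤ R) (hδ : 0 ≤ δ)
    (L : ℕ) [NeZero L] (hL : 2 * R < L) (p : Tor L)
    (W : WFun (gT L) β (ball p R)) (a : Tor L)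
    (hphi : ∃ φ : Tor L → ℝ, (∀ x, tnorm (x - a) ≤ 7 * l → φ x = 1) ∧
        (∀ x, R / 5 ≤ tnorm (x - a) → φ x = 0) ∧ En (gT L) φ ≤ δ) :
    |W.E (UU (gT L) β (kl R p l') 2 * UU (gT L) β (ka R p l a) 2)| ≤
      2 * √(51 * β ^ 4 * K ^ 2) * √δ / R ^ 2 := by
  have hl' : 1 ≤ l' := by linarith
  have hR0 : 0 < R := by linarith
  have hl0 : 0 < l := by linarith
  have hRl : 100 * l ≤ R := by linarith
  by_cases hz : ∃ x y, ka R p l a x y ≠ 0
  swap
  · push Not at hz
    have : ka R p l a = fun _ _ => 0 := by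
      funext x y
      exact hz x y
    rw [this, UU_zero]
    simp
    positivity
  obtain ⟨x₀, y₀, h0⟩ := hz
  have ha := (ka_supp hl hRl h0).2.2.2.2.2.2
  have hin : ∀ x r, tnorm (x - a) ≤ r → r ≤ 3 * R / 10 → x ∈ ball p R := by
    intro x r hx hr
    rw [mem_ball]
    have h1 : tnorm (x - p) ≤ tnorm (x - a) + tnorm (a - p) := by
      have := tnorm_add_le (x - a) (a - p)
      simpa using this
    linarith
  obtain ⟨φ, hφ1, hφ0, hφE⟩ := hphi
  have hlocU : ∀ h, Loc {z : Tor L | tnorm (z - a) ≤ 4 * l} (UU (gT L) β (ka R p l a) h) := by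
    intro h
    refine Loc_UU (gT L) β (B := {z | tnorm (z - a) ≤ 3 * l}) ?_ ?_ h
    · intro u v huv
      have := ka_supp hl hRl huv
      exact ⟨this.1, this.2.1⟩
    · intro e he
      have := edge_near e a (3 * l) he
      constructor
      · show tnorm _ ≤ _
        linarith [this.1]
      · show tnorm _ ≤ _
        linarith [this.2]
  have hbsupp : ∀ x, ch l a x * (fR R p x - fR R p a) ≠ 0 → tnorm (x - a) ≤ 6 * l :=
    fun x hx => ch_supp hl (left_ne_zero_of_mul hx)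
  have hbΛ : ∀ x, x ∉ ball p R → ch l a x * (fR R p x - fR R p a) = 0 := by
    intro x hx
    by_contra h
    exact hx (hin x (6 * l) (hbsupp x h) (by linarith))
  have hcross := W.cross_id (k' := kl R p l') (kl_anti R p l')
    (by
      intro x y hxy
      have := kl_supp hl' hR hxy
      rw [mem_ball, mem_ball]
      exact ⟨by linarith [this.2.2.1], by linarith [this.2.2.2]⟩)
    (f := fR R p)
    (by
      intro x hx
      rw [mem_ball, not_le] at hx
      exact fR_far R hR0 p x (by linarith))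
    (fun e => kl_edge hl' hR p e)
    (k := ka R p l a) (ka_anti R p l a)
    (A := {z : Tor L | tnorm (z - a) ≤ 4 * l}) hlocU
    (by
      intro x hx y hy
      refine kl_near hl' hR p ?_
      have h1 : tnorm (x - y) ≤ tnorm (x - a) + tnorm (a - y) := by
        have := tnorm_add_le (x - a) (a - y)
        simpa using this
      rw [tnorm_sub_comm a y] at h1
      have hx' : tnorm (x - a) ≤ 4 * l := hx
      have hy' : tnorm (y - a) ≤ 4 * l := hy
      linarith)
    (c := fR R p a) (b := fun x => ch l a x * (fR R p x - fR R p a))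
    (by
      intro x hx
      have hx' : tnorm (x - a) ≤ 4 * l := hx
      show ch l a x * _ = _
      rw [ch_one hl (by linarith), one_mul])
    hbΛ
    (fun x hx => hin x (4 * l) hx (by linarith))
  rw [hcross]
  have hQ : ∀ g h, W.E ((Sc (gT L) β (fun x => ch l a x * (fR R p x - fR R p a)) g *
      UU (gT L) β (ka R p l a) h) ^ 2) ≤
      51 * β ^ 3 * (K * l ^ 2 / R ^ 2) * (K / (l ^ 2 * R ^ 2)) := by
    intro g h
    refine W.T_sq hβ ?_ ?_ hbΛ g h (hgeo L p a R l hl hRl hL).1 (hgeo L p a R l hl hRl hL).2.1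
    · intro x hx
      by_contra h'
      exact hx (hin x l (th_supp hl h') (by linarith))
    · intro x hx
      by_contra h'
      exact hx (hin x (3 * l) (tt_supp hl h') (by linarith))
  have hs := W.spin2 hβ (k := ka R p l a) (ka_anti R p l a)
    (b := fun x => ch l a x * (fR R p x - fR R p a)) (φ := φ)
    (A := {z : Tor L | tnorm (z - a) ≤ 7 * l})
    (by
      intro g h
      refine Loc.mul ?_ ?_
      · refine Loc_Sc (gT L) β (B := {z | tnorm (z - a) ≤ 6 * l}) hbsupp ?_ g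
        intro e he
        have := edge_near e a (6 * l) he
        constructor
        · show tnorm _ ≤ _
          linarith [this.1]
        · show tnorm _ ≤ _
          linarith [this.2]
      · refine (hlocU h).mono ?_
        intro x hx
        have hx' : tnorm (x - a) ≤ 4 * l := hx
        show tnorm _ ≤ _
        linarith)
    (fun x hx => hφ1 x hx)
    (by
      intro x hx
      refine hφ0 x ?_
      by_contra h'
      rw [not_le] at h'
      exact hx (hin x (R / 5) h'.le (by linarith)))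
    hQ
  refine hs.trans ?_
  have e1 : β * En (gT L) φ * (51 * β ^ 3 * (K * l ^ 2 / R ^ 2) * (K / (l ^ 2 * R ^ 2))) ≤
      51 * β ^ 4 * K ^ 2 * δ / (R ^ 2) ^ 2 := by
    have e2 : 51 * β ^ 3 * (K * l ^ 2 / R ^ 2) * (K / (l ^ 2 * R ^ 2)) =
        51 * β ^ 3 * K ^ 2 / (R ^ 2) ^ 2 := by
      field_simp
    rw [e2]
    have e3 : β * En (gT L) φ ≤ β * δ := mul_le_mul_of_nonneg_left hφE hβ
    calc β * En (gT L) φ * (51 * β ^ 3 * K ^ 2 / (R ^ 2) ^ 2)
        ≤ β * δ * (51 * β ^ 3 * K ^ 2 / (R ^ 2) ^ 2) :=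
          mul_le_mul_of_nonneg_right e3 (by positivity)
      _ = _ := by ring
  have e4 : √(β * En (gT L) φ * (51 * β ^ 3 * (K * l ^ 2 / R ^ 2) * (K / (l ^ 2 * R ^ 2)))) ≤
      √(51 * β ^ 4 * K ^ 2) * √δ / R ^ 2 := by
    refine (Real.sqrt_le_sqrt e1).trans ?_
    rw [Real.sqrt_div (by positivity), Real.sqrt_mul (by positivity), Real.sqrt_sq (by positivity)]
  calc 2 * √(β * En (gT L) φ * (51 * β ^ 3 * (K * l ^ 2 / R ^ 2) * (K / (l ^ 2 * R ^ 2))))
      ≤ 2 * (√(51 * β ^ 4 * K ^ 2) * √δ / R ^ 2) := by linarith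
    _ = _ := by ring

theorem cross_scale (β : ℝ) (hβ : 0 ≤ β) : ∃ C : ℝ, 0 < C ∧ ∀ R l l' δ : ℝ, 1 ≤ l →
    16 * l ≤ l' → 100 * l' ≤ R → 0 ≤ δ → ∀ (L : ℕ) [NeZero L], 2 * R < L → ∀ (p : Tor L)
      (W : WFun (gT L) β (ball p R)),
      (∀ a : Tor L, ∃ φ : Tor L → ℝ, (∀ x, tnorm (x - a) ≤ 7 * l → φ x = 1) ∧
        (∀ x, R / 5 ≤ tnorm (x - a) → φ x = 0) ∧ En (gT L) φ ≤ δ) →
      |W.E (UU (gT L) β (kl R p l') 2 * UU (gT L) β (kl R p l) 2)| ≤ C * √δ := by
  obtain ⟨K, hK, hgeo⟩ := geo_energy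
  obtain ⟨K', hK', hcard⟩ := ball_card
  refine ⟨K' * 4 * (2 * √(51 * β ^ 4 * K ^ 2)) + 1, by positivity, ?_⟩
  intro R l l' δ hl hll hR hδ L _ hL p W hphi
  have hR0 : 0 < R := by linarith
  have hR1 : 1 ≤ R := by linarith
  have hsum : UU (gT L) β (kl R p l) 2 = ∑ a ∈ ball p R, UU (gT L) β (ka R p l a) 2 :=
    UU_sum (gT L) β (ball p R) (fun a => ka R p l a) 2
  rw [hsum, Finset.mul_sum, map_sum]
  have h1 : |∑ a ∈ ball p R, W.E (UU (gT L) β (kl R p l') 2 * UU (gT L) β (ka R p l a) 2)| ≤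
      ∑ a ∈ ball p R, 2 * √(51 * β ^ 4 * K ^ 2) * √δ / R ^ 2 := by
    refine (Finset.abs_sum_le_sum_abs _ _).trans (Finset.sum_le_sum fun a _ => ?_)
    exact cross_piece β hβ K hK hgeo R l l' δ hl hll hR hδ L hL p W a (hphi a)
  refine h1.trans ?_
  rw [Finset.sum_const, nsmul_eq_mul]
  have h2 : ((ball p R).card : ℝ) ≤ K' * 4 * R ^ 2 := by
    refine (hcard L p R hR0.le).trans ?_
    have : (1 + R) ^ 2 ≤ 4 * R ^ 2 := by nlinarith
    calc K' * (1 + R) ^ 2 ≤ K' * (4 * R ^ 2) := mul_le_mul_of_nonneg_left this hK'.le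
      _ = _ := by ring
  have h3 : 0 ≤ 2 * √(51 * β ^ 4 * K ^ 2) * √δ / R ^ 2 := by positivity
  calc ((ball p R).card : ℝ) * (2 * √(51 * β ^ 4 * K ^ 2) * √δ / R ^ 2)
      ≤ K' * 4 * R ^ 2 * (2 * √(51 * β ^ 4 * K ^ 2) * √δ / R ^ 2) :=
        mul_le_mul_of_nonneg_right h2 h3
    _ = K' * 4 * (2 * √(51 * β ^ 4 * K ^ 2)) * √δ := by
        field_simp
    _ ≤ _ := by
        have := Real.sqrt_nonneg δ
        nlinarith

end Pool.Agent.H717R2.ON3
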